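import Mathlib

open Finset

namespace GL51

variable {m : ℕ}

/-- the integer linear form with direction `(P, b)` -/
def ell {P : ℕ} (b : Fin m → Fin P) (p : Fin (m + 1) → ℤ) : ℤ :=
  P * p 0 + ∑ i, ((b i : ℕ) : ℤ) * p i.succ

/-- some short nonzero integer vector is almost orthogonal to `b` modulo `P` -/
def Bad (s : ℕ) {P : ℕ} (b : Fin m → Fin P) : Prop :=
  ∃ x : Fin m → ℤ, x ≠ 0 ∧ (∀ i, |x i| ≤ s) ∧ ∃ t : ℤ, |t| < s ∧
    (P : ℤ) ∣ ∑ i, ((b i : ℕ) : ℤ) * x i - t

lemma card_bad_one {s P : ℕ} (hP : P.Prime) (hs : s < P) (x : Fin m → ℤ) (hx : x ≠ 0)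
    (hxs : ∀ i, |x i| ≤ s) (S : Finset (Fin m → Fin P))
    (hS : ∀ b ∈ S, ∃ t : ℤ, |t| < s ∧ (P : ℤ) ∣ ∑ i, ((b i : ℕ) : ℤ) * x i - t) :
    S.card * P ≤ 2 * s * P ^ m := by
  classical
  obtain ⟨j, hj⟩ : ∃ j, x j ≠ 0 := by
    by_contra h
    push Not at h
    exact hx (funext h)
  choose! t ht using hS
  have h1 : (S ×ˢ (univ : Finset (Fin P))).card ≤
      ((Ico (-(s : ℤ)) s) ×ˢ (univ : Finset (Fin m → Fin P))).card := by
    refine card_le_card_of_injOn (fun q => (t q.1, Function.update q.1 j q.2)) ?_ ?_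
    · intro q hq
      have hq1 := (mem_product.1 hq).1
      have := abs_lt.1 (ht _ hq1).1
      simp only [coe_product, Set.mem_prod, mem_coe, mem_Ico, mem_univ, and_true]
      exact ⟨this.1.le, this.2⟩
    · rintro ⟨b, c⟩ hq ⟨b', c'⟩ hq' he
      have hb : b ∈ S := (mem_product.1 hq).1
      have hb' : b' ∈ S := (mem_product.1 hq').1
      simp only [Prod.mk.injEq] at he
      obtain ⟨e1, e2⟩ := he
      have hc : c = c' := by simpa using congrFun e2 j
      have ho : ∀ i, i ≠ j → b i = b' i := fun i hi => by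
        simpa [Function.update_of_ne hi] using congrFun e2 i
      have hd : (P : ℤ) ∣ (((b j : ℕ) : ℤ) - (b' j : ℕ)) * x j := by
        have h2 := dvd_sub (ht _ hb).2 (ht _ hb').2
        have h3 : ∑ i, ((b i : ℕ) : ℤ) * x i - t b - (∑ i, ((b' i : ℕ) : ℤ) * x i - t b') =
            (((b j : ℕ) : ℤ) - (b' j : ℕ)) * x j := by
          rw [e1, sub_sub_sub_cancel_right, ← sum_sub_distrib, sum_eq_single j]
          · ring
          · intro i _ hi
            rw [ho i hi, sub_self]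
          · simp
        rwa [h3] at h2
      have hbj : b j = b' j := by
        rcases (Nat.prime_iff_prime_int.1 hP).dvd_or_dvd hd with h | h
        · have h4 := (b j).2
          have h5 := (b' j).2
          have h6 := Int.eq_zero_of_abs_lt_dvd h (abs_lt.2 ⟨by omega, by omega⟩)
          exact Fin.ext (by omega)
        · exact absurd (Int.eq_zero_of_abs_lt_dvd h
            (lt_of_le_of_lt (hxs j) (by exact_mod_cast hs))) hj
      refine Prod.ext (funext fun i => ?_) hc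
      by_cases hi : i = j
      · rw [hi]; exact hbj
      · exact ho i hi
  simp only [card_product, card_univ, Fintype.card_fin, Fintype.card_pi, prod_const,
    Int.card_Ico] at h1
  have h7 : ((s : ℤ) - -(s : ℤ)).toNat = 2 * s := by omega
  rwa [h7] at h1

open Classical in
lemma card_bad {s P : ℕ} (hP : P.Prime) (hs : 1 ≤ s) (hQ : 8 * s * (3 * s) ^ m < P) :
    4 * (univ.filter fun b : Fin m → Fin P => Bad s b).card ≤ P ^ m := by
  have h3 : 1 ≤ (3 * s) ^ m := Nat.one_le_pow _ _ (by omega)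
  have hsP : s < P := by nlinarith
  set W : Finset (Fin m → ℤ) := (Fintype.piFinset fun _ => Icc (-(s : ℤ)) s).erase 0 with hW
  set S : (Fin m → ℤ) → Finset (Fin m → Fin P) := fun x => univ.filter fun b =>
    ∃ t : ℤ, |t| < s ∧ (P : ℤ) ∣ ∑ i, ((b i : ℕ) : ℤ) * x i - t with hS
  have h1 : (univ.filter fun b : Fin m → Fin P => Bad s b) ⊆ W.biUnion S := by
    intro b hb
    obtain ⟨x, hx, hxs, h⟩ := (mem_filter.1 hb).2
    refine mem_biUnion.2 ⟨x, mem_erase.2 ⟨hx, Fintype.mem_piFinset.2 fun i => ?_⟩,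
      mem_filter.2 ⟨mem_univ _, h⟩⟩
    exact mem_Icc.2 (abs_le.1 (hxs i))
  have h2 : W.card ≤ (3 * s) ^ m := by
    refine (card_erase_le).trans ?_
    simp only [Fintype.card_piFinset, prod_const, card_univ, Fintype.card_fin, Int.card_Icc]
    exact Nat.pow_le_pow_left (by omega) _
  have h4 : (W.biUnion S).card * P ≤ (3 * s) ^ m * (2 * s * P ^ m) := by
    calc (W.biUnion S).card * P ≤ (∑ x ∈ W, (S x).card) * P :=
          Nat.mul_le_mul_right _ card_biUnion_le
      _ = ∑ x ∈ W, (S x).card * P := sum_mul _ _ _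
      _ ≤ ∑ _x ∈ W, 2 * s * P ^ m := by
          refine sum_le_sum fun x hx => ?_
          have hx' := mem_erase.1 hx
          exact card_bad_one hP hsP x hx'.1
            (fun i => abs_le.2 (mem_Icc.1 (Fintype.mem_piFinset.1 hx'.2 i))) _
            fun b hb => (mem_filter.1 hb).2
      _ = W.card * (2 * s * P ^ m) := by rw [sum_const, smul_eq_mul]
      _ ≤ _ := Nat.mul_le_mul_right _ h2
  have h5 := card_le_card h1
  have h6 : 4 * (W.biUnion S).card * P ≤ P ^ m * P := by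
    calc 4 * (W.biUnion S).card * P = 4 * ((W.biUnion S).card * P) := by ring
      _ ≤ 4 * ((3 * s) ^ m * (2 * s * P ^ m)) := Nat.mul_le_mul_left _ h4
      _ = P ^ m * (8 * s * (3 * s) ^ m) := by ring
      _ ≤ P ^ m * P := Nat.mul_le_mul_left _ hQ.le
  have h7 := Nat.le_of_mul_le_mul_right h6 hP.pos
  omega

/-- two integers with the same quotient are close -/
lemma close_of_div {a b c : ℤ} (hc : 0 < c) (h : a / c = b / c) : |a - b| < c := by
  have h1 := Int.mul_ediv_add_emod a c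
  have h2 := Int.mul_ediv_add_emod b c
  have h3 := Int.emod_nonneg a hc.ne'
  have h4 := Int.emod_nonneg b hc.ne'
  have h5 := Int.emod_lt_of_pos a hc
  have h6 := Int.emod_lt_of_pos b hc
  rw [h] at h1
  exact abs_lt.2 ⟨by linarith, by linarith⟩

/-- the bound for the spread of the directions met in one cell -/
def DD (m : ℕ) : ℕ := (m + 4) * (16 * 3 ^ m)

/-- approximate monotonicity: near maximisers in one cell have close directions -/
lemma spread {s P : ℕ} (hs : 1 ≤ s) (hQ : 8 * s * (3 * s) ^ m < P)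
    (hQ' : P ≤ 2 * (8 * s * (3 * s) ^ m)) (b b' : Fin m → Fin P) (p p' : Fin (m + 1) → ℤ)
    (h1 : ell b p' - s < ell b p) (h2 : ell b' p - s < ell b' p')
    (hc : ∀ i, |(P * p i.succ + (s : ℤ) ^ (m + 2) * (b i : ℕ)) -
      (P * p' i.succ + (s : ℤ) ^ (m + 2) * (b' i : ℕ))| < P * s) (j : Fin m) :
    |((b j : ℕ) : ℤ) - (b' j : ℕ)| ≤ DD m := by
  set R : ℤ := (s : ℤ) ^ (m + 2) with hR
  set u : Fin m → ℤ := fun i => p i.succ - p' i.succ with hu
  set w : Fin m → ℤ := fun i => ((b i : ℕ) : ℤ) - (b' i : ℕ) with hw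
  have hs0 : (0 : ℤ) < s := by exact_mod_cast hs
  have hR0 : 0 < R := by positivity
  have hP0 : (0 : ℤ) ≤ P := by positivity
  have hmon : -(2 * (s : ℤ)) ≤ ∑ i, w i * u i := by
    have : ∑ i, w i * u i = (ell b p - ell b p') + (ell b' p' - ell b' p) := by
      simp only [ell, hu, hw, sub_mul, mul_sub, sum_sub_distrib]
      ring
    linarith
  have hsq : ∑ i, (P * u i + R * w i) ^ 2 ≤ m * ((P : ℤ) * s) ^ 2 := by
    calc ∑ i, (P * u i + R * w i) ^ 2 ≤ ∑ _i : Fin m, ((P : ℤ) * s) ^ 2 := by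
          refine sum_le_sum fun i _ => ?_
          have h3 : P * u i + R * w i = (P * p i.succ + R * (b i : ℕ)) -
              (P * p' i.succ + R * (b' i : ℕ)) := by
            simp only [hu, hw]; ring
          rw [h3]
          exact sq_le_sq' (abs_lt.1 (hc i)).1.le (abs_lt.1 (hc i)).2.le
      _ = _ := by simp
  have hex : ∑ i, (P * u i + R * w i) ^ 2 =
      ∑ i, (P * u i) ^ 2 + 2 * (P * R) * ∑ i, w i * u i + ∑ i, (R * w i) ^ 2 := by
    rw [mul_sum, ← sum_add_distrib, ← sum_add_distrib]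
    exact sum_congr rfl fun i _ => by ring
  have h4 : 0 ≤ ∑ i, ((P : ℤ) * u i) ^ 2 := sum_nonneg fun i _ => sq_nonneg _
  have h5 : (R * w j) ^ 2 ≤ ∑ i, (R * w i) ^ 2 :=
    single_le_sum (f := fun i => (R * w i) ^ 2) (fun i _ => sq_nonneg _) (mem_univ j)
  have h6 : (s : ℤ) ^ (m + 1) ≤ P := by
    have h7 : s ^ m ≤ (3 * s) ^ m := Nat.pow_le_pow_left (by omega) _
    have h8 : s ^ (m + 1) ≤ P := by rw [pow_succ]; nlinarith
    exact_mod_cast h8
  have h9 : R ≤ P * s := by
    rw [hR, pow_succ]; exact mul_le_mul_of_nonneg_right h6 hs0.le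
  have h10 : (P : ℤ) * s ≤ 16 * 3 ^ m * R := by
    have h11 : (P : ℤ) ≤ 2 * (8 * s * (3 * s) ^ m) := by exact_mod_cast hQ'
    calc (P : ℤ) * s ≤ 2 * (8 * s * (3 * s) ^ m) * s := mul_le_mul_of_nonneg_right h11 hs0.le
      _ = _ := by rw [hR, mul_pow]; ring
  have h12 : 2 * ((P : ℤ) * R) * (-(2 * (s : ℤ))) ≤ 2 * (P * R) * ∑ i, w i * u i :=
    mul_le_mul_of_nonneg_left hmon (by positivity)
  have h13 : (P * s) * R ≤ ((P : ℤ) * s) * (P * s) :=
    mul_le_mul_of_nonneg_left h9 (by positivity)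
  have h14 : (R * w j) ^ 2 ≤ (m + 4) * ((P : ℤ) * s) ^ 2 := by nlinarith
  have h15 : ((P : ℤ) * s) ^ 2 ≤ (16 * 3 ^ m * R) ^ 2 := pow_le_pow_left₀ (by positivity) h10 2
  have h16 : (R * w j) ^ 2 ≤ (R * DD m) ^ 2 := by
    have h17 : (1 : ℤ) ≤ m + 4 := by omega
    calc (R * w j) ^ 2 ≤ (m + 4) * (16 * 3 ^ m * R) ^ 2 :=
          h14.trans (mul_le_mul_of_nonneg_left h15 (by omega))
      _ ≤ ((m + 4) * (m + 4)) * (16 * 3 ^ m * R) ^ 2 :=
          mul_le_mul_of_nonneg_right (by nlinarith) (sq_nonneg _)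
      _ = _ := by simp only [DD]; push_cast; ring
  have h18 := abs_le_of_sq_le_sq h16 (by positivity)
  rw [abs_mul, abs_of_pos hR0] at h18
  exact le_of_mul_le_mul_left h18 hR0

/-- for a good direction two near maximisers in one cell coincide -/
lemma same {s P : ℕ} (hsP : s < P) (b : Fin m → Fin P) (hb : ¬ Bad s b)
    (p p' : Fin (m + 1) → ℤ) (h : |ell b p - ell b p'| < s)
    (hc : ∀ i : Fin m, |P * p i.succ - P * p' i.succ| < (P : ℤ) * s) : p = p' := by
  have hP0 : (0 : ℤ) < P := by exact_mod_cast (by omega : 0 < P)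
  have he : ell b p - ell b p' =
      P * (p 0 - p' 0) + ∑ i, ((b i : ℕ) : ℤ) * (p i.succ - p' i.succ) := by
    simp only [ell, mul_sub, sum_sub_distrib]; ring
  have hx : (fun i : Fin m => p i.succ - p' i.succ) = 0 := by
    by_contra hx
    refine hb ⟨_, hx, fun i => ?_, ell b p - ell b p', h, ⟨-(p 0 - p' 0), by rw [he]; ring⟩⟩
    have := hc i
    rw [← mul_sub, abs_mul, abs_of_pos hP0] at this
    exact (lt_of_mul_lt_mul_left this hP0.le).le
  have hx' : ∀ i : Fin m, p i.succ - p' i.succ = 0 := fun i => congrFun hx i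
  simp only [hx', mul_zero, sum_const_zero, add_zero] at he
  have h0 : p 0 - p' 0 = 0 := by
    have h1 : |(P : ℤ) * (p 0 - p' 0)| < P := by
      rw [← he]; exact h.trans (by exact_mod_cast hsP)
    have := Int.eq_zero_of_abs_lt_dvd (dvd_mul_right _ _) h1
    exact (mul_eq_zero.1 this).resolve_left hP0.ne'
  funext i
  refine Fin.cases ?_ (fun i => ?_) i
  · exact sub_eq_zero.1 h0
  · exact sub_eq_zero.1 (hx' i)

end GL51
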