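import Pool.Agent.Lib.MP_71cb23_co.Defs

namespace GL51

open Classical in
/-- the grid of all points of `ℝ^d` whose coordinates lie in `{1, …, n}` -/
noncomputable def grid (d n : ℕ) : Finset (EuclideanSpace ℝ (Fin d)) :=
  (Fintype.piFinset fun _ : Fin d => Finset.Icc 1 n).image
    fun k : Fin d → ℕ => WithLp.toLp 2 fun i => (k i : ℝ)

end GL51
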