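import Pool.Agent.Lib.GL51.Core

open Finset

namespace GL51

variable {m : ℕ}

/-- the length of one window of peeling steps -/
def MM (m : ℕ) : ℕ := 4 * (2 * DD m + 1) ^ m

lemma MM_pos (m : ℕ) : 0 < MM m := by unfold MM; positivity

/-- the data of a peeling sequence seen from the directions `(P, b)` -/
structure Sys (s P T : ℕ) (v : (Fin m → Fin P) → ℕ → Fin (m + 1) → ℤ) : Prop where
  lo : ∀ b k, k < T → ∀ i, 0 ≤ v b k i
  hi : ∀ b k, k < T → ∀ i, v b k i ≤ (s : ℤ) ^ (m + 2)
  top : ∀ b b' k k', k ≤ k' → k' < T → ell b (v b' k') ≤ ell b (v b k)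
  inj : ∀ b k k', k < k' → k' < T → v b k ≠ v b k'

variable {s P T : ℕ} {v : (Fin m → Fin P) → ℕ → Fin (m + 1) → ℤ}

lemma Sys.inactive (h : Sys s P T v) (hs : 1 ≤ s) (hQ : 8 * s * (3 * s) ^ m < P)
    (hQ' : P ≤ 2 * (8 * s * (3 * s) ^ m)) {k : ℕ} (hk : k + MM m < T)
    (I : Finset (Fin m → Fin P)) (hg : ∀ b ∈ I, ¬ Bad s b)
    (hI : ∀ b ∈ I, ell b (v b k) - s < ell b (v b (k + MM m))) : 4 * I.card ≤ P ^ m := by
  classical
  have h3 : 1 ≤ (3 * s) ^ m := Nat.one_le_pow _ _ (by omega)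
  have hsP : s < P := by nlinarith
  have hs0 : (0 : ℤ) < s := by exact_mod_cast hs
  have hP0 : (0 : ℤ) < P := by exact_mod_cast (by omega : 0 < P)
  have hPs : (0 : ℤ) < P * s := by positivity
  have hsm : 3 * s ^ (m + 1) ≤ P := by
    have h7 : s ^ m ≤ (3 * s) ^ m := Nat.pow_le_pow_left (by omega) _
    rw [pow_succ]; nlinarith
  set f : (Fin m → Fin P) × ℕ → Fin m → ℤ := fun q i =>
    (P * v q.1 (k + q.2) i.succ + (s : ℤ) ^ (m + 2) * (q.1 i : ℕ)) / (P * s) with hf
  have near : ∀ q ∈ I ×ˢ range (MM m), ∀ q' ∈ I ×ˢ range (MM m),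
      ell q.1 (v q'.1 (k + q'.2)) - s < ell q.1 (v q.1 (k + q.2)) := by
    intro q hq q' hq'
    have a1 := mem_range.1 (mem_product.1 hq).2
    have a2 := mem_range.1 (mem_product.1 hq').2
    have a3 := h.top q.1 q'.1 k (k + q'.2) (by omega) (by omega)
    have a4 := h.top q.1 q.1 (k + q.2) (k + MM m) (by omega) hk
    have a5 := hI _ (mem_product.1 hq).1
    linarith
  have hmap : ∀ q ∈ I ×ˢ range (MM m), f q ∈ Fintype.piFinset fun _ : Fin m => Ico (0 : ℤ) P := by
    intro q hq
    have a1 := mem_range.1 (mem_product.1 hq).2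
    refine Fintype.mem_piFinset.2 fun i => mem_Ico.2 ⟨?_, ?_⟩
    · have := h.lo q.1 (k + q.2) (by omega) i.succ
      exact Int.ediv_nonneg (by positivity) hPs.le
    · have a2 := h.hi q.1 (k + q.2) (by omega) i.succ
      have a3 : ((q.1 i : ℕ) : ℤ) ≤ P := by exact_mod_cast (q.1 i).2.le
      have a4 : (3 : ℤ) * s ^ (m + 1) ≤ P := by exact_mod_cast hsm
      have a5 : (0 : ℤ) < s ^ (m + 1) := by positivity
      refine Int.ediv_lt_of_lt_mul hPs ?_
      have a6 : (P : ℤ) * v q.1 (k + q.2) i.succ ≤ P * s ^ (m + 2) :=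
        mul_le_mul_of_nonneg_left a2 hP0.le
      have a7 : (s : ℤ) ^ (m + 2) * (q.1 i : ℕ) ≤ s ^ (m + 2) * P :=
        mul_le_mul_of_nonneg_left a3 (by positivity)
      have a8 : 2 * (s : ℤ) ^ (m + 1) * (P * s) < P * (P * s) :=
        mul_lt_mul_of_pos_right (by linarith) hPs
      calc _ ≤ (P : ℤ) * s ^ (m + 2) + s ^ (m + 2) * P := add_le_add a6 a7
        _ = 2 * (s : ℤ) ^ (m + 1) * (P * s) := by ring
        _ < _ := a8
  have hfib : ∀ c ∈ Fintype.piFinset fun _ : Fin m => Ico (0 : ℤ) P,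
      ((I ×ˢ range (MM m)).filter fun q => f q = c).card ≤ (2 * DD m + 1) ^ m := by
    intro c _
    rcases ((I ×ˢ range (MM m)).filter fun q => f q = c).eq_empty_or_nonempty with he | ⟨q0, hq0⟩
    · rw [he]; simp
    have hcl : ∀ q ∈ (I ×ˢ range (MM m)).filter fun q => f q = c,
        ∀ q' ∈ (I ×ˢ range (MM m)).filter fun q => f q = c, ∀ i : Fin m,
        |(P * v q.1 (k + q.2) i.succ + (s : ℤ) ^ (m + 2) * (q.1 i : ℕ)) -
          (P * v q'.1 (k + q'.2) i.succ + (s : ℤ) ^ (m + 2) * (q'.1 i : ℕ))| < P * s := by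
      intro q hq q' hq' i
      exact close_of_div hPs (congrFun ((mem_filter.1 hq).2.trans (mem_filter.1 hq').2.symm) i)
    have hle : ((I ×ˢ range (MM m)).filter fun q => f q = c).card ≤
        (Fintype.piFinset fun _ : Fin m => Icc (-(DD m : ℤ)) (DD m)).card := by
      refine card_le_card_of_injOn (fun q i => ((q.1 i : ℕ) : ℤ) - (q0.1 i : ℕ)) ?_ ?_
      · intro q hq
        have hq' := mem_coe.1 hq
        refine mem_coe.2 (Fintype.mem_piFinset.2 fun i => mem_Icc.2 (abs_le.1 ?_))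
        exact spread hs hQ hQ' q.1 q0.1 _ _ (near _ (mem_filter.1 hq').1 _ (mem_filter.1 hq0).1)
          (near _ (mem_filter.1 hq0).1 _ (mem_filter.1 hq').1) (hcl _ hq' _ hq0) i
      · rintro ⟨b, j⟩ hq ⟨b', j'⟩ hq' he
        have hq1 := mem_coe.1 hq
        have hq2 := mem_coe.1 hq'
        have hb : b = b' := funext fun i => by
          have := congrFun he i
          simp only [sub_left_inj, Nat.cast_inj] at this
          exact Fin.ext this
        subst hb
        have n1 := near _ (mem_filter.1 hq1).1 _ (mem_filter.1 hq2).1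
        have n2 := near _ (mem_filter.1 hq2).1 _ (mem_filter.1 hq1).1
        have a1 := mem_range.1 (mem_product.1 (mem_filter.1 hq1).1).2
        have a2 := mem_range.1 (mem_product.1 (mem_filter.1 hq2).1).2
        simp only at n1 n2 a1 a2
        have e := same hsP b (hg _ (mem_product.1 (mem_filter.1 hq1).1).1) (v b (k + j))
          (v b (k + j')) (abs_lt.2 ⟨by linarith, by linarith⟩) fun i => by
            have := hcl _ hq1 _ hq2 i
            simpa only [add_sub_add_right_eq_sub] using this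
        rcases lt_trichotomy j j' with hj | hj | hj
        · exact absurd e (h.inj b _ _ (by omega) (by omega))
        · rw [hj]
        · exact absurd e.symm (h.inj b _ _ (by omega) (by omega))
    refine hle.trans (le_of_eq ?_)
    simp only [Fintype.card_piFinset, prod_const, card_univ, Fintype.card_fin, Int.card_Icc]
    congr 1
    omega
  have hc := card_le_mul_card_image_of_maps_to hmap _ hfib
  simp only [card_product, card_range, Fintype.card_piFinset, prod_const, card_univ,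
    Fintype.card_fin, Int.card_Ico, sub_zero, Int.toNat_natCast] at hc
  have hK : 0 < (2 * DD m + 1) ^ m := by positivity
  refine Nat.le_of_mul_le_mul_left ?_ hK
  calc (2 * DD m + 1) ^ m * (4 * I.card) = I.card * MM m := by unfold MM; ring
    _ ≤ _ := hc

lemma Sys.window (h : Sys s P T v) (hP : P.Prime) (hs : 1 ≤ s) (hQ : 8 * s * (3 * s) ^ m < P)
    (hQ' : P ≤ 2 * (8 * s * (3 * s) ^ m)) {k : ℕ} (hk : k + MM m < T) :
    (s : ℤ) * P ^ m ≤ 2 * (∑ b, ell b (v b k) - ∑ b, ell b (v b (k + MM m))) := by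
  classical
  set A : Finset (Fin m → Fin P) :=
    univ.filter fun b => ell b (v b (k + MM m)) ≤ ell b (v b k) - s with hA
  set I : Finset (Fin m → Fin P) :=
    univ.filter fun b => ¬ Bad s b ∧ ell b (v b k) - s < ell b (v b (k + MM m)) with hI
  have h1 := card_bad (m := m) hP hs hQ
  have h2 := h.inactive hs hQ hQ' hk I (fun b hb => (mem_filter.1 hb).2.1)
    (fun b hb => (mem_filter.1 hb).2.2)
  have h3 : (univ : Finset (Fin m → Fin P)) ⊆
      (A ∪ I) ∪ univ.filter fun b : Fin m → Fin P => Bad s b := by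
    intro b _
    by_cases hb : Bad s b
    · exact mem_union_right _ (mem_filter.2 ⟨mem_univ _, hb⟩)
    · refine mem_union_left _ ?_
      by_cases hc : ell b (v b (k + MM m)) ≤ ell b (v b k) - s
      · exact mem_union_left _ (mem_filter.2 ⟨mem_univ _, hc⟩)
      · exact mem_union_right _ (mem_filter.2 ⟨mem_univ _, hb, not_le.1 hc⟩)
  have h4 := (card_le_card h3).trans ((card_union_le _ _).trans
    (Nat.add_le_add_right (card_union_le _ _) _))
  simp only [card_univ, Fintype.card_pi, Fintype.card_fin, prod_const] at h4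
  have h5 : P ^ m ≤ 2 * A.card := by omega
  have h6 : (P : ℤ) ^ m ≤ 2 * A.card := by exact_mod_cast h5
  have h7 : (A.card : ℤ) * s ≤ ∑ b, (ell b (v b k) - ell b (v b (k + MM m))) := by
    calc (A.card : ℤ) * s = ∑ _b ∈ A, (s : ℤ) := by simp
      _ ≤ ∑ b ∈ A, (ell b (v b k) - ell b (v b (k + MM m))) :=
          sum_le_sum fun b hb => by have := (mem_filter.1 hb).2; linarith
      _ ≤ _ := sum_le_sum_of_subset_of_nonneg (subset_univ _) fun b _ _ =>
          sub_nonneg.2 (h.top b b k _ (by omega) hk)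
  rw [sum_sub_distrib] at h7
  have hs0 : (0 : ℤ) ≤ s := by positivity
  nlinarith

/-- the constant of the upper bound -/
def CC (m : ℕ) : ℕ := MM m * (32 * (m + 1) * 3 ^ m + 1)

lemma Sys.bound (h : Sys s P T v) (hP : P.Prime) (hs : 1 ≤ s) (hQ : 8 * s * (3 * s) ^ m < P)
    (hQ' : P ≤ 2 * (8 * s * (3 * s) ^ m)) : T ≤ CC m * s ^ (2 * m + 2) := by
  have hs0 : (0 : ℤ) < s := by exact_mod_cast hs
  have hP0 : (0 : ℤ) < P := by exact_mod_cast hP.pos
  have key : ∀ t : ℕ, t * MM m < T →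
      t * ((s : ℤ) * P ^ m) ≤ 2 * (∑ b, ell b (v b 0) - ∑ b, ell b (v b (t * MM m))) := by
    intro t
    induction t with
    | zero => simp
    | succ t ih =>
      intro ht
      rw [Nat.succ_mul] at ht
      have a1 := ih (by omega)
      have a2 := h.window hP hs hQ hQ' ht
      rw [Nat.succ_mul]
      push_cast
      linarith
  by_contra hT
  push Not at hT
  set t : ℕ := (32 * (m + 1) * 3 ^ m + 1) * s ^ (2 * m + 2) with ht
  have htT : t * MM m < T := by
    refine lt_of_le_of_lt (le_of_eq ?_) hT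
    rw [ht, CC]; ring
  have a1 := key t htT
  have a2 : 0 ≤ ∑ b, ell b (v b (t * MM m)) := by
    refine sum_nonneg fun b _ => ?_
    have := h.lo b _ htT
    exact add_nonneg (mul_nonneg hP0.le (this 0))
      (sum_nonneg fun i _ => mul_nonneg (by positivity) (this _))
  have a3 : ∑ b, ell b (v b 0) ≤ (P : ℤ) ^ m * ((m + 1) * (P * s ^ (m + 2))) := by
    calc ∑ b, ell b (v b 0) ≤ ∑ _b : Fin m → Fin P, ((m + 1) * ((P : ℤ) * s ^ (m + 2))) := by
          refine sum_le_sum fun b _ => ?_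
          have b1 := h.hi b 0 (by omega)
          have b0 := h.lo b 0 (by omega)
          have b2 : ∑ i, ((b i : ℕ) : ℤ) * v b 0 i.succ ≤ ∑ _i : Fin m, (P : ℤ) * s ^ (m + 2) :=
            sum_le_sum fun i _ => mul_le_mul (by exact_mod_cast (b i).2.le) (b1 _) (b0 _) hP0.le
          have b3 := mul_le_mul_of_nonneg_left (b1 0) hP0.le
          simp only [sum_const, card_univ, Fintype.card_fin, nsmul_eq_mul] at b2
          unfold ell
          linarith
      _ = _ := by simp
  have a4 : (P : ℤ) ≤ 2 * (8 * s * (3 * s) ^ m) := by exact_mod_cast hQ'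
  have a5 : (P : ℤ) ^ m * (t * s) ≤ P ^ m * (2 * ((m + 1) * (P * s ^ (m + 2)))) := by linarith
  have a6 := le_of_mul_le_mul_left a5 (by positivity)
  have a7 : 2 * (((m : ℤ) + 1) * (P * s ^ (m + 2))) ≤
      2 * ((m + 1) * (2 * (8 * s * (3 * s) ^ m) * s ^ (m + 2))) := by gcongr
  have a8 : 2 * (((m : ℤ) + 1) * (2 * (8 * s * (3 * s) ^ m) * s ^ (m + 2))) =
      32 * (m + 1) * 3 ^ m * s ^ (2 * m + 2) * s := by rw [mul_pow]; ring
  have a9 : (t : ℤ) * s = 32 * (m + 1) * 3 ^ m * s ^ (2 * m + 2) * s + s ^ (2 * m + 2) * s := by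
    rw [ht]; push_cast; ring
  have a10 : (0 : ℤ) < s ^ (2 * m + 2) * s := by positivity
  linarith

end GL51
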