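import Pool.Agent.Lib.MP_71cb23_co.Main
import Pool.Agent.Lib.GL51.Window
import Pool.Agent.Lib.GL51.Grid

open Finset Layer71
open scoped RealInnerProductSpace

namespace GL51

variable {d : ℕ}

/-- the point of Euclidean space with the given integer coordinates -/
noncomputable def pt (p : Fin d → ℤ) : EuclideanSpace ℝ (Fin d) :=
  WithLp.toLp 2 fun i => (p i : ℝ)

lemma pt_inj {p q : Fin d → ℤ} (h : pt p = pt q) : p = q := by
  funext i
  have := congrArg (fun x : EuclideanSpace ℝ (Fin d) => x i) h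
  simpa [pt] using this

lemma mem_grid {n : ℕ} {x : EuclideanSpace ℝ (Fin d)} :
    x ∈ grid d n ↔ ∃ p : Fin d → ℤ, (∀ i, 1 ≤ p i ∧ p i ≤ n) ∧ pt p = x := by
  classical
  simp only [grid, mem_image, Fintype.mem_piFinset, mem_Icc]
  constructor
  · rintro ⟨k, hk, rfl⟩
    refine ⟨fun i => k i, fun i => ?_, by simp [pt]⟩
    have := hk i
    beta_reduce
    omega
  · rintro ⟨p, hp, rfl⟩
    refine ⟨fun i => (p i).toNat, fun i => ?_, ?_⟩
    · have := hp i
      beta_reduce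
      omega
    unfold pt
    congr 1
    funext i
    have h1 : (((p i).toNat : ℕ) : ℤ) = p i := by have := hp i; omega
    exact_mod_cast h1

lemma nonempty_of_lt {X : Finset (EuclideanSpace ℝ (Fin d))} {k : ℕ} (h : k < layer X) :
    (peel^[k] X).Nonempty := by
  classical
  exact nonempty_iff_ne_empty.2 (Nat.find_min (peel_ends X) h)

lemma lt_of_mem {X : Finset (EuclideanSpace ℝ (Fin d))} {k : ℕ} {x : EuclideanSpace ℝ (Fin d)}
    (h : x ∈ peel^[k] X) : k < layer X := by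
  classical
  by_contra hk
  push Not at hk
  have : x ∈ peel^[layer X] X := peel_anti X hk h
  rw [show peel^[layer X] X = ∅ from Nat.find_spec (peel_ends X)] at this
  simp at this

lemma inner_pt {m P : ℕ} (b : Fin m → Fin P) (p : Fin (m + 1) → ℤ) :
    ⟪pt p, pt (Fin.cons (P : ℤ) fun i => ((b i : ℕ) : ℤ))⟫ = (ell b p : ℝ) := by
  simp only [pt, ell, PiLp.inner_apply, Fin.sum_univ_succ, Fin.cons_zero, Fin.cons_succ]
  push_cast
  simp

lemma upper_nat {m n s : ℕ} (hs : 1 ≤ s) (hn : n ≤ s ^ (m + 2)) :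
    layer (grid (m + 1) n) ≤ CC m * s ^ (2 * m + 2) := by
  obtain ⟨P, hP, hQ, hQ'⟩ := Nat.exists_prime_lt_and_le_two_mul (8 * s * (3 * s) ^ m)
    (by positivity)
  set X := grid (m + 1) n with hX
  have hex : ∀ (b : Fin m → Fin P) (k : ℕ), ∃ p : Fin (m + 1) → ℤ, k < layer X →
      (∀ i, 1 ≤ p i ∧ p i ≤ n) ∧ pt p ∈ peel^[k] X ∧ pt p ∉ peel^[k + 1] X ∧
        ∀ q, pt q ∈ peel^[k] X → ell b q ≤ ell b p := by
    intro b k
    by_cases hk : k < layer X
    · obtain ⟨x, hx, hx', hm⟩ := exists_top (nonempty_of_lt hk)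
        (pt (Fin.cons (P : ℤ) fun i => ((b i : ℕ) : ℤ)))
      obtain ⟨p, hp, rfl⟩ := mem_grid.1 (peel_anti X (Nat.zero_le k) hx)
      refine ⟨p, fun _ => ⟨hp, hx, by rwa [Function.iterate_succ_apply'], fun q hq => ?_⟩⟩
      have := hm _ hq
      rw [inner_pt, inner_pt] at this
      exact_mod_cast this
    · exact ⟨0, fun h => absurd h hk⟩
  choose v hv using hex
  refine Sys.bound (v := v) ⟨fun b k hk i => ?_, fun b k hk i => ?_, fun b b' k k' h1 h2 => ?_,
    fun b k k' h1 h2 e => ?_⟩ hP hs hQ hQ'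
  · have := ((hv b k hk).1 i).1
    omega
  · exact ((hv b k hk).1 i).2.trans (by exact_mod_cast hn)
  · exact (hv b k (by omega)).2.2.2 _ (peel_anti X h1 (hv b' k' h2).2.1)
  · exact (hv b k (by omega)).2.2.1 (e ▸ peel_anti X (Nat.succ_le_of_lt h1) (hv b k' h2).2.1)

/-- a short nonzero integer vector almost orthogonal to a given one -/
lemma short {s : ℕ} (hd : 1 ≤ d) (hs : 1 ≤ s) (a : Fin d → ℤ) (ha : ∀ i, |a i| ≤ (s : ℤ) ^ (d + 1)) :
    ∃ w : Fin d → ℤ, w ≠ 0 ∧ (∀ i, |w i| ≤ s) ∧ |∑ i, a i * w i| ≤ 2 * d * (s : ℤ) ^ 2 + 1 := by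
  classical
  have hs0 : (0 : ℤ) < s := by exact_mod_cast hs
  set c : ℤ := 2 * d * (s : ℤ) ^ 2 + 1 with hc
  have hc0 : 0 < c := by positivity
  set N : ℤ := d * (s : ℤ) ^ (d + 2) with hN
  have hcard : (Ico (0 : ℤ) ((s : ℤ) ^ d)).card <
      (Fintype.piFinset fun _ : Fin d => Icc (0 : ℤ) s).card := by
    simp only [Fintype.card_piFinset, prod_const, card_univ, Fintype.card_fin, Int.card_Icc,
      Int.card_Ico, sub_zero]
    have h1 : ((s : ℤ) + 1).toNat = s + 1 := by omega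
    have h2 : ((s : ℤ) ^ d).toNat = s ^ d := by
      rw [← Nat.cast_pow]; exact Int.toNat_natCast _
    rw [h1, h2]
    exact Nat.pow_lt_pow_left (by omega) (by omega)
  obtain ⟨u, hu, u', hu', hne, he⟩ := exists_ne_map_eq_of_card_lt_of_maps_to hcard
    (f := fun u => (∑ i, a i * u i + N) / c) (fun u hu => by
      have hu' := fun i => mem_Icc.1 (Fintype.mem_piFinset.1 (mem_coe.1 hu) i)
      have h1 : |∑ i, a i * u i| ≤ N := by
        refine (abs_sum_le_sum_abs _ _).trans ?_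
        calc ∑ i, |a i * u i| ≤ ∑ _i : Fin d, (s : ℤ) ^ (d + 1) * s := by
              refine sum_le_sum fun i _ => ?_
              rw [abs_mul, abs_of_nonneg (hu' i).1]
              exact mul_le_mul (ha i) (hu' i).2 (hu' i).1 (by positivity)
          _ = N := by simp [hN]; left; ring
      have h2 := abs_le.1 h1
      refine mem_coe.2 (mem_Ico.2 ⟨Int.ediv_nonneg (by linarith) hc0.le,
        Int.ediv_lt_of_lt_mul hc0 ?_⟩)
      have h3 : (s : ℤ) ^ d * c = 2 * N + s ^ d := by rw [hc, hN]; ring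
      have h4 : (0 : ℤ) < s ^ d := by positivity
      linarith)
  have hu1 := fun i => mem_Icc.1 (Fintype.mem_piFinset.1 hu i)
  have hu2 := fun i => mem_Icc.1 (Fintype.mem_piFinset.1 hu' i)
  refine ⟨u - u', sub_ne_zero.2 hne, fun i => ?_, ?_⟩
  · have := hu1 i
    have := hu2 i
    rw [Pi.sub_apply, abs_le]
    constructor <;> linarith
  · have := close_of_div hc0 he
    simp only [Pi.sub_apply, mul_sub, sum_sub_distrib]
    rw [add_sub_add_right_eq_sub] at this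
    exact this.le

lemma mid_mem_peel {X : Finset (EuclideanSpace ℝ (Fin d))} {p w : Fin d → ℤ} (hw : w ≠ 0)
    (h0 : pt p ∈ X) (h1 : pt (p + w) ∈ X) (h2 : pt (p - w) ∈ X) : pt p ∈ peel X := by
  refine mem_peel.2 ⟨h0, fun h => hw ?_⟩
  have h3 : pt p ∈ openSegment ℝ (pt (p + w)) (pt (p - w)) := by
    refine ⟨1 / 2, 1 / 2, by norm_num, by norm_num, by norm_num, ?_⟩
    ext i
    simp [pt]
    ring
  have h4 := pt_inj (h.2 (subset_convexHull ℝ _ h1) (subset_convexHull ℝ _ h2) h3)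
  simpa using h4

lemma lower_nat {n s r k : ℕ} (hd : 1 ≤ d) (hs : 1 ≤ s) (hn : n ≤ s ^ (d + 1))
    (hr : 2 * r + 1 ≤ n) (hk : k * (7 * d * s ^ 2) ≤ r ^ 2) : k < layer (grid d n) := by
  have hs0 : (1 : ℤ) ≤ s := by exact_mod_cast hs
  have hd0 : (1 : ℤ) ≤ d := by exact_mod_cast hd
  have hsq : ∀ a : Fin d → ℤ, ∑ i, a i ^ 2 ≤ (r : ℤ) ^ 2 → ∀ i, |a i| ≤ r := fun a ha i =>
    abs_le_of_sq_le_sq ((single_le_sum (f := fun i => a i ^ 2) (fun i _ => sq_nonneg _)
      (mem_univ i)).trans ha) (by positivity)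
  have key : ∀ j : ℕ, ∀ a : Fin d → ℤ, ∑ i, a i ^ 2 + j * (7 * d * (s : ℤ) ^ 2) ≤ (r : ℤ) ^ 2 →
      pt (a + fun _ => (r : ℤ) + 1) ∈ peel^[j] (grid d n) := by
    intro j
    induction j with
    | zero =>
      intro a ha
      refine mem_grid.2 ⟨_, fun i => ?_, rfl⟩
      have := abs_le.1 (hsq a (by simpa using ha) i)
      simp only [Pi.add_apply]
      omega
    | succ j ih =>
      intro a ha
      have hτ : (0 : ℤ) ≤ 7 * d * (s : ℤ) ^ 2 := by positivity
      have hj : (0 : ℤ) ≤ j * (7 * d * (s : ℤ) ^ 2) := by positivity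
      push_cast at ha
      have ha' : ∀ i, |a i| ≤ (s : ℤ) ^ (d + 1) := fun i =>
        (hsq a (by linarith) i).trans (by exact_mod_cast (by omega : r ≤ s ^ (d + 1)))
      obtain ⟨w, hw, hws, hwa⟩ := short hd hs a ha'
      have hw2 : ∑ i, w i ^ 2 ≤ d * (s : ℤ) ^ 2 := by
        calc ∑ i, w i ^ 2 ≤ ∑ _i : Fin d, (s : ℤ) ^ 2 :=
              sum_le_sum fun i _ => sq_le_sq' (abs_le.1 (hws i)).1 (abs_le.1 (hws i)).2
          _ = _ := by simp
      have hw3 := abs_le.1 hwa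
      have h1 : (1 : ℤ) ≤ d * (s : ℤ) ^ 2 := by nlinarith
      have e1 : ∑ i, (a + w) i ^ 2 = ∑ i, a i ^ 2 + 2 * ∑ i, a i * w i + ∑ i, w i ^ 2 := by
        rw [mul_sum, ← sum_add_distrib, ← sum_add_distrib]
        exact sum_congr rfl fun i _ => by simp only [Pi.add_apply]; ring
      have e2 : ∑ i, (a - w) i ^ 2 = ∑ i, a i ^ 2 - 2 * ∑ i, a i * w i + ∑ i, w i ^ 2 := by
        rw [mul_sum, ← sum_sub_distrib, ← sum_add_distrib]
        exact sum_congr rfl fun i _ => by simp only [Pi.sub_apply]; ring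
      rw [Function.iterate_succ_apply']
      refine mid_mem_peel hw (ih a (by linarith)) ?_ ?_
      · rw [add_right_comm]; exact ih _ (by linarith)
      · rw [add_sub_right_comm]; exact ih _ (by linarith)
  refine lt_of_mem (key k 0 ?_)
  simp only [Pi.zero_apply, ne_eq, OfNat.ofNat_ne_zero, not_false_eq_true, zero_pow,
    sum_const_zero, zero_add]
  exact_mod_cast hk

theorem main (hd : 1 ≤ d) : ∃ c > (0 : ℝ), ∃ C : ℝ, ∀ n : ℕ, 1 ≤ n →
    c * (n : ℝ) ^ (2 * d / (d + 1) : ℝ) ≤ layer (grid d n) ∧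
      (layer (grid d n) : ℝ) ≤ C * (n : ℝ) ^ (2 * d / (d + 1) : ℝ) := by
  obtain ⟨m, rfl⟩ : ∃ m, d = m + 1 := ⟨d - 1, by omega⟩
  refine ⟨1 / (448 * (m + 1)), by positivity, CC m * 2 ^ (2 * m + 2), fun n hn => ?_⟩
  have hn1 : (1 : ℝ) ≤ n := by exact_mod_cast hn
  set x : ℝ := (n : ℝ) ^ (((m + 2 : ℕ) : ℝ)⁻¹) with hx
  have hx1 : 1 ≤ x := Real.one_le_rpow hn1 (by positivity)
  have hxn : x ^ (m + 2) = n := Real.rpow_inv_natCast_pow (by positivity) (by omega)
  have hxe : (n : ℝ) ^ (2 * ((m + 1 : ℕ) : ℝ) / (((m + 1 : ℕ) : ℝ) + 1) : ℝ) = x ^ (2 * m + 2) := by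
    rw [hx, ← Real.rpow_natCast, ← Real.rpow_mul (by positivity)]
    congr 1
    push_cast
    field_simp
    ring
  rw [hxe]
  set s : ℕ := ⌈x⌉₊ with hs
  have hs1 : x ≤ s := Nat.le_ceil x
  have hs2 : (s : ℝ) ≤ 2 * x := by
    have := Nat.ceil_lt_add_one (by linarith : 0 ≤ x)
    linarith
  have hs3 : 1 ≤ s := by exact_mod_cast hx1.trans hs1
  have hns : n ≤ s ^ (m + 2) := by
    have : (n : ℝ) ≤ (s : ℝ) ^ (m + 2) := by
      rw [← hxn]; exact pow_le_pow_left₀ (by linarith) hs1 _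
    exact_mod_cast this
  constructor
  · set r : ℕ := (n - 1) / 2 with hr
    set τ : ℕ := 7 * (m + 1) * s ^ 2 with hτ
    have hτ0 : 0 < τ := by positivity
    have h1 := lower_nat (d := m + 1) (r := r) (k := r ^ 2 / τ) (by omega) hs3 hns (by omega)
      (Nat.div_mul_le_self _ _)
    set L := layer (grid (m + 1) n) with hL
    have h2 : r ^ 2 < L * τ := by
      have := Nat.lt_mul_div_succ (r ^ 2) hτ0
      nlinarith
    have h3 : n ^ 2 ≤ 16 * (L * τ) := by
      rcases Nat.eq_zero_or_pos r with h0 | h0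
      · have : n ≤ 2 := by omega
        nlinarith
      · have : n ≤ 4 * r := by omega
        nlinarith
    have h4 : (n : ℝ) ^ 2 ≤ 16 * (L * (7 * (m + 1) * (s : ℝ) ^ 2)) := by exact_mod_cast h3
    have h5 : (s : ℝ) ^ 2 ≤ (2 * x) ^ 2 := pow_le_pow_left₀ (by positivity) hs2 2
    have h6 : x ^ (2 * m + 2) * x ^ 2 ≤ (448 * (m + 1) * L) * x ^ 2 := by
      calc x ^ (2 * m + 2) * x ^ 2 = (n : ℝ) ^ 2 := by rw [← hxn]; ring
        _ ≤ 16 * (L * (7 * (m + 1) * (2 * x) ^ 2)) := h4.trans (by gcongr)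
        _ = _ := by ring
    have h7 := le_of_mul_le_mul_right h6 (by positivity)
    rw [one_div, inv_mul_le_iff₀ (by positivity)]
    exact h7
  · have h1 : (layer (grid (m + 1) n) : ℝ) ≤ CC m * (s : ℝ) ^ (2 * m + 2) := by
      exact_mod_cast upper_nat hs3 hns
    calc _ ≤ CC m * (s : ℝ) ^ (2 * m + 2) := h1
      _ ≤ CC m * (2 * x) ^ (2 * m + 2) := by gcongr
      _ = _ := by rw [mul_pow]; ring

end GL51
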